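import Pool.Agent.H89.FLT.S

/-!
# MP_e1ba20: row DIM

The space of the vectors of sum zero which are constant on the `q` classes of `d`, all of size `k`,
has dimension at most `q - 1`.
-/

set_option autoImplicit false

namespace Pool.FLT

/-- the number of classes is `q` -/
theorem dim_card (n k q : ℕ) (d : Fin n → ℝ) (hn : 1 ≤ n) (hnk : n = k * q)
    (h : ∀ i, (Finset.univ.filter fun j => d j = d i).card = k) :
    (Finset.univ.image d).card = q := by
  classical
  have h1 : (Finset.univ : Finset (Fin n)).card =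
      ∑ b ∈ Finset.univ.image d, (Finset.univ.filter fun j => d j = b).card :=
    Finset.card_eq_sum_card_image d Finset.univ
  have h2 : ∑ b ∈ Finset.univ.image d, (Finset.univ.filter fun j => d j = b).card =
      ∑ b ∈ Finset.univ.image d, k := by
    refine Finset.sum_congr rfl fun b hb => ?_
    obtain ⟨i, _, rfl⟩ := Finset.mem_image.mp hb
    exact h i
  rw [h2, Finset.sum_const, smul_eq_mul, Finset.card_univ, Fintype.card_fin] at h1
  have h3 : (Finset.univ.image d).card * k = q * k := by
    rw [← h1, mul_comm q k]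
    exact hnk
  have hk : 0 < k := by
    rcases Nat.eq_zero_or_pos k with h0 | h0
    · rw [h0, zero_mul] at hnk
      omega
    · exact h0
  exact Nat.eq_of_mul_eq_mul_right hk h3

theorem dim : DIMStmt := by
  classical
  intro n k q d hn hnk h
  have hcard := dim_card n k q d hn hnk h
  have hk : 0 < k := by
    rcases Nat.eq_zero_or_pos k with h0 | h0
    · rw [h0, zero_mul] at hnk
      omega
    · exact h0
  have hq : 0 < q := by
    rcases Nat.eq_zero_or_pos q with h0 | h0
    · rw [h0, mul_zero] at hnk
      omega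
    · exact h0
  set Q : Finset ℝ := Finset.univ.image d with hQ
  have hs : ∀ v : Q, ∃ i : Fin n, d i = v := by
    intro v
    obtain ⟨i, _, hi⟩ := Finset.mem_image.mp v.2
    exact ⟨i, hi⟩
  choose s hs using hs
  let L : (Wd d × ℝ) →ₗ[ℝ] (Q → ℝ) :=
    { toFun := fun p v => co (p.1 : aa n) (s v) + p.2
      map_add' := by
        intro p p'
        funext v
        simp only [co, Prod.fst_add, Prod.snd_add, Submodule.coe_add, PiLp.add_apply, Pi.add_apply]
        ring
      map_smul' := by
        intro c p
        funext v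
        simp only [co, Prod.smul_fst, Prod.smul_snd, Submodule.coe_smul, PiLp.smul_apply,
          smul_eq_mul, Pi.smul_apply, RingHom.id_apply]
        ring }
  have hsum : ∀ x : Wd d, ∑ v : Q, co (x : aa n) (s v) = 0 := by
    intro x
    have h0 : ∑ i, co (x : aa n) i = 0 := (x : aa n).2
    have hmem : ∀ i : Fin n, d i ∈ Q := fun i => Finset.mem_image_of_mem d (Finset.mem_univ i)
    have h1 : ∑ i, co (x : aa n) i = ∑ i : Fin n, co (x : aa n) (s ⟨d i, hmem i⟩) := by
      refine Finset.sum_congr rfl fun i _ => ?_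
      exact x.2 i (s ⟨d i, hmem i⟩) (hs ⟨d i, hmem i⟩).symm
    have h2 : ∑ i : Fin n, co (x : aa n) (s ⟨d i, hmem i⟩) =
        ∑ v : Q, ∑ i ∈ Finset.univ.filter (fun i : Fin n => (⟨d i, hmem i⟩ : Q) = v),
          co (x : aa n) (s ⟨d i, hmem i⟩) :=
      (Finset.sum_fiberwise Finset.univ (fun i : Fin n => (⟨d i, hmem i⟩ : Q))
        (fun i => co (x : aa n) (s ⟨d i, hmem i⟩))).symm
    have h3 : ∀ v : Q, ∑ i ∈ Finset.univ.filter (fun i : Fin n => (⟨d i, hmem i⟩ : Q) = v),
          co (x : aa n) (s ⟨d i, hmem i⟩) = (k : ℝ) * co (x : aa n) (s v) := by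
      intro v
      have h4 : ∑ i ∈ Finset.univ.filter (fun i : Fin n => (⟨d i, hmem i⟩ : Q) = v),
          co (x : aa n) (s ⟨d i, hmem i⟩) =
          ∑ i ∈ Finset.univ.filter (fun i : Fin n => (⟨d i, hmem i⟩ : Q) = v),
          co (x : aa n) (s v) := by
        refine Finset.sum_congr rfl fun i hi => ?_
        rw [(Finset.mem_filter.mp hi).2]
      rw [h4, Finset.sum_const, nsmul_eq_mul]
      have h5 : (Finset.univ.filter (fun i : Fin n => (⟨d i, hmem i⟩ : Q) = v)).card = k := by
        rw [← h (s v)]
        refine congrArg Finset.card ?_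
        ext i
        simp only [Finset.mem_filter, Finset.mem_univ, true_and, Subtype.ext_iff, hs v]
      rw [h5]
    rw [h1, h2, Finset.sum_congr rfl fun v _ => h3 v, ← Finset.mul_sum] at h0
    rcases mul_eq_zero.mp h0 with h6 | h6
    · exact absurd (Nat.cast_eq_zero.mp h6) hk.ne'
    · exact h6
  have hL : Function.Injective L := by
    rw [← LinearMap.ker_eq_bot, LinearMap.ker_eq_bot']
    intro p hp
    have h1 : ∀ v : Q, co (p.1 : aa n) (s v) + p.2 = 0 := fun v => congrFun hp v
    have h2 : ∑ v : Q, (co (p.1 : aa n) (s v) + p.2) = 0 := Finset.sum_eq_zero fun v _ => h1 v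
    rw [Finset.sum_add_distrib, hsum p.1, zero_add, Finset.sum_const, nsmul_eq_mul,
      Finset.card_univ, Fintype.card_coe, hcard] at h2
    have h3 : p.2 = 0 := by
      rcases mul_eq_zero.mp h2 with h6 | h6
      · exact absurd (Nat.cast_eq_zero.mp h6) hq.ne'
      · exact h6
    have h4 : p.1 = 0 := by
      apply Subtype.ext
      apply Subtype.ext
      ext i
      have hmem : d i ∈ Q := Finset.mem_image_of_mem d (Finset.mem_univ i)
      have h5 : co (p.1 : aa n) i = co (p.1 : aa n) (s ⟨d i, hmem⟩) :=
        p.1.2 i (s ⟨d i, hmem⟩) (hs ⟨d i, hmem⟩).symm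
      have h6 := h1 ⟨d i, hmem⟩
      rw [← h5, h3, add_zero] at h6
      exact h6
    exact Prod.ext h4 h3
  have h7 := LinearMap.finrank_le_finrank_of_injective hL
  rw [Module.finrank_prod, Module.finrank_self, Module.finrank_fintype_fun_eq_card,
    Fintype.card_coe, hcard] at h7
  exact h7

end Pool.FLT
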